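import Pool.Agent.Y738.PE.Stm3
import Pool.Agent.Y65.PE.Bound

/-! # PE3-E4: a ground state which is translation invariant up to scalars exists -/

set_option autoImplicit false

open scoped BigOperators ComplexConjugate Classical Topology

noncomputable section

namespace Pool.Agent.Y932.PE

open Pool.Agent.Y738.PE

section abs

variable {S : Type} [Fintype S]

/-- the form of an operator -/
def bil (M : (S → ℂ) →ₗ[ℂ] (S → ℂ)) (φ ψ : S → ℂ) : ℂ := ∑ s, conj (φ s) * M ψ s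

lemma bil_self (M : (S → ℂ) →ₗ[ℂ] (S → ℂ)) (ψ : S → ℂ) :
    bil M (M ψ) ψ = ((nrm (M ψ) : ℝ) : ℂ) := sum_conj_self (M ψ)

lemma bil_add_smul (M : (S → ℂ) →ₗ[ℂ] (S → ℂ)) (ψ η : S → ℂ) (t : ℝ) :
    bil M (ψ + (t : ℂ) • η) (ψ + (t : ℂ) • η) =
      bil M ψ ψ + t * bil M ψ η + t * bil M η ψ + t ^ 2 * bil M η η := by
  unfold bil
  rw [Finset.mul_sum, Finset.mul_sum, Finset.mul_sum, ← Finset.sum_add_distrib,
    ← Finset.sum_add_distrib, ← Finset.sum_add_distrib]
  refine Finset.sum_congr rfl fun s _ => ?_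
  rw [map_add, map_smul]
  simp only [Pi.add_apply, Pi.smul_apply, smul_eq_mul, map_add, map_mul, Complex.conj_ofReal]
  ring

lemma bil_smul (M : (S → ℂ) →ₗ[ℂ] (S → ℂ)) (φ : S → ℂ) (c : ℝ) :
    bil M ((c : ℂ) • φ) ((c : ℂ) • φ) = c ^ 2 * bil M φ φ := by
  unfold bil
  rw [Finset.mul_sum]
  refine Finset.sum_congr rfl fun s _ => ?_
  rw [map_smul]
  simp only [Pi.smul_apply, smul_eq_mul, map_mul, Complex.conj_ofReal]
  ring

lemma nrm_smul (φ : S → ℂ) (c : ℝ) : nrm ((c : ℂ) • φ) = c ^ 2 * nrm φ := by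
  unfold nrm
  rw [Finset.mul_sum]
  refine Finset.sum_congr rfl fun s _ => ?_
  rw [Pi.smul_apply, smul_eq_mul, norm_mul, mul_pow, Complex.norm_real, Real.norm_eq_abs, sq_abs]

lemma eq_zero_of_nrm {φ : S → ℂ} (h : nrm φ ≤ 0) : φ = 0 := funext fun s => nrm_eq_zero h s

theorem psd_ker (M : (S → ℂ) →ₗ[ℂ] (S → ℂ)) (hM : ∀ φ ψ, bil M φ ψ = conj (bil M ψ φ))
    (hpos : ∀ φ, 0 ≤ (bil M φ φ).re) (ψ : S → ℂ) (h0 : (bil M ψ ψ).re = 0) : M ψ = 0 := by
  set η := M ψ with hη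
  set n := nrm η with hn
  set K := (bil M η η).re with hK
  have hK0 : 0 ≤ K := hpos η
  have hn0 : 0 ≤ n := nrm_nonneg η
  have h1 : ∀ t : ℝ, 0 ≤ 2 * t * n + t ^ 2 * K := by
    intro t
    have h2 := hpos (ψ + (t : ℂ) • η)
    rw [bil_add_smul] at h2
    have h3 : bil M η ψ = ((n : ℝ) : ℂ) := bil_self M ψ
    have h4 : bil M ψ η = ((n : ℝ) : ℂ) := by rw [hM, h3, Complex.conj_ofReal]
    rw [h3, h4] at h2
    have h5 : (bil M ψ ψ + t * ((n : ℝ) : ℂ) + t * ((n : ℝ) : ℂ) + t ^ 2 * bil M η η).re =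
        2 * t * n + t ^ 2 * K := by
      have h6 : ((t : ℂ) ^ 2 * bil M η η).re = t ^ 2 * K := by
        rw [← Complex.ofReal_pow, Complex.re_ofReal_mul]
      have h7 : ((t : ℂ) * ((n : ℝ) : ℂ)).re = t * n := by
        rw [← Complex.ofReal_mul, Complex.ofReal_re]
      rw [Complex.add_re, Complex.add_re, Complex.add_re, h6, h7, h0]
      ring
    rw [h5] at h2
    exact h2
  have h2 := h1 (-n / (K + 1))
  have hK1 : 0 < K + 1 := by linarith
  have h3 : 2 * (-n / (K + 1)) * n + (-n / (K + 1)) ^ 2 * K =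
      -(n ^ 2 * (K + 2)) / (K + 1) ^ 2 := by
    field_simp
    ring
  rw [h3] at h2
  have h4 : 0 ≤ -(n ^ 2 * (K + 2)) := by
    by_contra h
    push Not at h
    have := div_neg_of_neg_of_pos h (show 0 < (K + 1) ^ 2 by positivity)
    linarith
  have h5 : n ≤ 0 := by
    by_contra h
    push Not at h
    have : 0 < n ^ 2 * (K + 2) := by positivity
    linarith
  exact eq_zero_of_nrm h5

theorem exists_min [Nonempty S] (H : (S → ℂ) →ₗ[ℂ] (S → ℂ))
    (hH : ∀ φ ψ, bil H φ ψ = conj (bil H ψ φ)) :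
    ∃ E : ℝ, (∃ ψ : S → ℂ, ψ ≠ 0 ∧ H ψ = (E : ℂ) • ψ) ∧ ∀ φ, E * nrm φ ≤ (bil H φ φ).re := by
  have hHc : Continuous H := H.continuous_of_finiteDimensional
  have hqc : Continuous fun φ : S → ℂ => (bil H φ φ).re := by
    unfold bil
    refine Complex.continuous_re.comp (continuous_finsetSum _ fun s _ => ?_)
    exact (Complex.continuous_conj.comp (continuous_apply s)).mul ((continuous_apply s).comp hHc)
  have hnc : Continuous fun φ : S → ℂ => nrm φ := by
    unfold nrm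
    fun_prop
  have hcomp : IsCompact {φ : S → ℂ | nrm φ = 1} := by
    apply Metric.isCompact_of_isClosed_isBounded (isClosed_eq hnc continuous_const)
    rw [isBounded_iff_forall_norm_le]
    refine ⟨1, fun φ hφ => (pi_norm_le_iff_of_nonneg zero_le_one).2 fun s => ?_⟩
    have h1 : ‖φ s‖ ^ 2 ≤ nrm φ :=
      Finset.single_le_sum (f := fun s => ‖φ s‖ ^ 2) (fun _ _ => by positivity) (Finset.mem_univ s)
    have h2 : nrm φ = 1 := hφ
    rw [h2] at h1
    nlinarith [norm_nonneg (φ s)]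
  have hne : ({φ : S → ℂ | nrm φ = 1}).Nonempty := by
    obtain ⟨s0⟩ := ‹Nonempty S›
    refine ⟨Pi.single s0 1, ?_⟩
    show nrm (Pi.single s0 (1 : ℂ)) = 1
    unfold nrm
    rw [Finset.sum_eq_single s0]
    · simp
    · intro s _ hs
      simp [Pi.single_eq_of_ne hs]
    · intro h
      exact absurd (Finset.mem_univ s0) h
  obtain ⟨ψ, hψ1, hψ2⟩ := hcomp.exists_isMinOn hne hqc.continuousOn
  have hψ1' : nrm ψ = 1 := hψ1
  set E := (bil H ψ ψ).re with hE
  have hlow : ∀ φ, E * nrm φ ≤ (bil H φ φ).re := by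
    intro φ
    rcases (nrm_nonneg φ).lt_or_eq with hpos | h0
    · set c : ℝ := (Real.sqrt (nrm φ))⁻¹ with hc
      have hc2 : c ^ 2 = (nrm φ)⁻¹ := by
        rw [hc, inv_pow, Real.sq_sqrt hpos.le]
      have h1 : nrm ((c : ℂ) • φ) = 1 := by
        rw [nrm_smul, hc2, inv_mul_cancel₀ hpos.ne']
      have h2 : E ≤ (bil H ((c : ℂ) • φ) ((c : ℂ) • φ)).re := hψ2 h1
      rw [bil_smul, ← Complex.ofReal_pow, Complex.re_ofReal_mul, hc2] at h2
      have h3 := mul_le_mul_of_nonneg_right h2 hpos.le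
      have h4 : (nrm φ)⁻¹ * (bil H φ φ).re * nrm φ = (bil H φ φ).re := by
        field_simp
      rw [h4] at h3
      exact h3
    · have h1 : φ = 0 := eq_zero_of_nrm h0.symm.le
      rw [← h0, mul_zero, h1]
      unfold bil
      simp
  refine ⟨E, ⟨ψ, ?_, ?_⟩, hlow⟩
  · rintro rfl
    unfold nrm at hψ1'
    simp at hψ1'
  · set M : (S → ℂ) →ₗ[ℂ] (S → ℂ) := H - (E : ℂ) • LinearMap.id with hMd
    have hbil : ∀ φ χ, bil M φ χ = bil H φ χ - E * ∑ s, conj (φ s) * χ s := by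
      intro φ χ
      unfold bil
      rw [Finset.mul_sum, ← Finset.sum_sub_distrib]
      refine Finset.sum_congr rfl fun s _ => ?_
      simp only [hMd, LinearMap.sub_apply, LinearMap.smul_apply, LinearMap.id_apply, Pi.sub_apply,
        Pi.smul_apply, smul_eq_mul]
      ring
    have hself : ∀ φ, (bil M φ φ).re = (bil H φ φ).re - E * nrm φ := by
      intro φ
      rw [hbil, sum_conj_self, ← Complex.ofReal_mul, Complex.sub_re, Complex.ofReal_re]
    have hM : M ψ = 0 := by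
      apply psd_ker M
      · intro φ χ
        rw [hbil, hbil, hH φ χ, map_sub, map_mul, Complex.conj_ofReal, map_sum]
        congr 2
        refine Finset.sum_congr rfl fun s _ => ?_
        rw [map_mul, Complex.conj_conj]
        ring
      · intro φ
        rw [hself]
        linarith [hlow φ]
      · rw [hself, hψ1', ← hE]
        ring
    have h2 : H ψ - (E : ℂ) • ψ = 0 := hM
    exact sub_eq_zero.mp h2

theorem exists_eig {V : Type} [AddCommGroup V] [Module ℂ V] [FiniteDimensional ℂ V]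
    (W : Submodule ℂ V) (hW : ∃ x ∈ W, x ≠ 0) (T : V →ₗ[ℂ] V) (hT : ∀ x ∈ W, T x ∈ W) :
    ∃ c : ℂ, ∃ x ∈ W, x ≠ 0 ∧ T x = c • x := by
  obtain ⟨x0, hx0, hx0'⟩ := hW
  have : Nontrivial W := ⟨⟨⟨x0, hx0⟩, 0, fun h => hx0' (congrArg Subtype.val h)⟩⟩
  obtain ⟨c, hc⟩ := Module.End.exists_eigenvalue (T.restrict hT)
  obtain ⟨x, hx⟩ := hc.exists_hasEigenvector
  refine ⟨c, x, x.2, fun h => hx.2 (Subtype.ext h), ?_⟩
  have h1 := congrArg Subtype.val hx.apply_eq_smul
  exact h1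

end abs

section conc

variable {d q L : ℕ} [NeZero L]

/-- the Hamiltonian as a linear map -/
def hamL (h : BConf d q → BConf d q → ℂ) (L : ℕ) [NeZero L] :
    (Conf d L → ℂ) →ₗ[ℂ] (Conf d L → ℂ) where
  toFun := ham h L
  map_add' φ ψ := by
    funext s
    unfold ham
    simp only [Pi.add_apply]
    rw [← Finset.sum_add_distrib]
    refine Finset.sum_congr rfl fun v _ => ?_
    rw [← Finset.sum_add_distrib]
    refine Finset.sum_congr rfl fun τ _ => ?_
    ring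
  map_smul' c φ := by
    funext s
    unfold ham
    simp only [Pi.smul_apply, smul_eq_mul, RingHom.id_apply]
    rw [Finset.mul_sum]
    refine Finset.sum_congr rfl fun v _ => ?_
    rw [Finset.mul_sum]
    refine Finset.sum_congr rfl fun τ _ => ?_
    ring

/-- the translation as a linear map -/
def trL (a : Site L) : (Conf d L → ℂ) →ₗ[ℂ] (Conf d L → ℂ) where
  toFun φ := fun t => φ (fun w => t (w + a))
  map_add' _ _ := rfl
  map_smul' _ _ := rfl

lemma herm_conj (X : BConf d q → BConf d q → ℝ) (σ τ : BConf d q) :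
    conj (hermOf X τ σ) = hermOf X σ τ := by
  unfold hermOf
  rw [map_add, map_mul, Complex.conj_ofReal, Complex.conj_ofReal, Complex.conj_I]
  push_cast
  ring

theorem ham_symm (hq : q ≤ L) (h : BConf d q → BConf d q → ℂ)
    (hh : ∀ σ τ, conj (h τ σ) = h σ τ) (φ ψ : Conf d L → ℂ) :
    bil (hamL h L) φ ψ = conj (bil (hamL h L) ψ φ) := by
  have e1 : ∀ φ ψ : Conf d L → ℂ, bil (hamL h L) φ ψ = ∑ v : Site L, ∑ x : Conf d L × BConf d q,
      conj (φ x.1) * (h (box q x.1 v) x.2 * ψ (put x.1 v x.2)) := by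
    intro φ ψ
    show ∑ s, conj (φ s) * (∑ v : Site L, ∑ τ : BConf d q, h (box q s v) τ * ψ (put s v τ)) = _
    simp only [Finset.mul_sum]
    rw [Finset.sum_comm]
    refine Finset.sum_congr rfl fun v _ => ?_
    rw [Fintype.sum_prod_type]
  rw [e1, e1, map_sum]
  refine Finset.sum_congr rfl fun v _ => ?_
  rw [map_sum]
  refine Fintype.sum_equiv (Pool.Agent.Y65.PE.exch (fun s => box q s v) (fun s τ => put s v τ)
    (fun s σ => Pool.Agent.Y65.PE.box_put hq s v σ)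
    (fun s σ τ => Pool.Agent.Y65.PE.put_put s v σ τ)
    (fun s => Pool.Agent.Y65.PE.put_box s v)) _ _ fun x => ?_
  obtain ⟨s, τ⟩ := x
  show conj (φ s) * (h (box q s v) τ * ψ (put s v τ)) =
    conj (conj (ψ (put s v τ)) * (h (box q (put s v τ) v) (box q s v) *
      φ (put (put s v τ) v (box q s v))))
  rw [Pool.Agent.Y65.PE.box_put hq, Pool.Agent.Y65.PE.put_put, Pool.Agent.Y65.PE.put_box, map_mul,
    map_mul, Complex.conj_conj, hh]
  ring

omit [NeZero L] in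
theorem tr_add {Ψ : Conf d L → ℂ} {a b : Site L}
    (ha : ∃ c : ℂ, ∀ s : Conf d L, Ψ (fun w => s (w + a)) = c * Ψ s)
    (hb : ∃ c : ℂ, ∀ s : Conf d L, Ψ (fun w => s (w + b)) = c * Ψ s) :
    ∃ c : ℂ, ∀ s : Conf d L, Ψ (fun w => s (w + (a + b))) = c * Ψ s := by
  obtain ⟨c, hc⟩ := ha
  obtain ⟨c', hc'⟩ := hb
  refine ⟨c * c', fun s => ?_⟩
  have h1 := hc (fun w => s (w + b))
  have h2 : (fun w => s (w + (a + b))) = fun w => (fun u => s (u + b)) (w + a) := by
    funext w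
    show s (w + (a + b)) = s (w + a + b)
    rw [add_assoc]
  rw [h2, h1, hc', mul_assoc]

omit [NeZero L] in
theorem tr_nsmul {Ψ : Conf d L → ℂ} {a : Site L}
    (ha : ∃ c : ℂ, ∀ s : Conf d L, Ψ (fun w => s (w + a)) = c * Ψ s) (n : ℕ) :
    ∃ c : ℂ, ∀ s : Conf d L, Ψ (fun w => s (w + n • a)) = c * Ψ s := by
  induction n with
  | zero => exact ⟨1, fun s => by simp⟩
  | succ n ih =>
    rw [succ_nsmul]
    exact tr_add ih ha

theorem transInv_of {Ψ : Conf d L → ℂ}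
    (h1 : ∃ c : ℂ, ∀ s : Conf d L, Ψ (fun w => s (w + (1, 0))) = c * Ψ s)
    (h2 : ∃ c : ℂ, ∀ s : Conf d L, Ψ (fun w => s (w + (0, 1))) = c * Ψ s) : TransInv Ψ := by
  intro a
  have h3 : a = a.1.val • ((1, 0) : Site L) + a.2.val • ((0, 1) : Site L) := by
    refine Prod.ext ?_ ?_
    · simp
    · simp
  rw [h3]
  exact tr_add (tr_nsmul h1 _) (tr_nsmul h2 _)

theorem main (hd : 0 < d) (hq : q ≤ L) (X : BConf d q → BConf d q → ℝ) :
    ∃ Ψ : Conf d L → ℂ, IsGround (hermOf X) L Ψ ∧ TransInv Ψ := by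
  have : Nonempty (Conf d L) := ⟨fun _ => ⟨0, hd⟩⟩
  obtain ⟨E, ⟨ψ0, hψ0, hψE⟩, hlow⟩ := exists_min (hamL (hermOf X) L)
    (ham_symm hq (hermOf X) (herm_conj X))
  set H := hamL (hermOf X) L with hH
  have hcomm : ∀ (a : Site L) (φ : Conf d L → ℂ), H (trL a φ) = trL a (H φ) := by
    intro a φ
    funext s
    exact ham_shift (hermOf X) φ a s
  -- the space of minimisers
  set W : Submodule ℂ (Conf d L → ℂ) := LinearMap.ker (H - (E : ℂ) • LinearMap.id) with hW
  have hWm : ∀ φ, φ ∈ W ↔ H φ = (E : ℂ) • φ := by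
    intro φ
    rw [hW, LinearMap.mem_ker, LinearMap.sub_apply, LinearMap.smul_apply, LinearMap.id_apply,
      sub_eq_zero]
  have hWtr : ∀ a, ∀ φ ∈ W, trL a φ ∈ W := by
    intro a φ hφ
    rw [hWm] at hφ ⊢
    rw [hcomm, hφ, map_smul]
  obtain ⟨c1, ψ1, hψ1W, hψ1, hψ1c⟩ := exists_eig W ⟨ψ0, (hWm ψ0).2 hψE, hψ0⟩ (trL (1, 0))
    (hWtr (1, 0))
  set W' : Submodule ℂ (Conf d L → ℂ) :=
    W ⊓ LinearMap.ker (trL ((1, 0) : Site L) - c1 • LinearMap.id) with hW'
  have hWm' : ∀ φ, φ ∈ W' ↔ φ ∈ W ∧ trL ((1, 0) : Site L) φ = c1 • φ := by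
    intro φ
    rw [hW', Submodule.mem_inf]
    refine and_congr Iff.rfl ?_
    rw [LinearMap.mem_ker, LinearMap.sub_apply, LinearMap.smul_apply, LinearMap.id_apply,
      sub_eq_zero]
  have hcomm2 : ∀ (a b : Site L) (φ : Conf d L → ℂ), trL a (trL b φ) = trL b (trL a φ) := by
    intro a b φ
    funext s
    show φ (fun w => s (w + b + a)) = φ (fun w => s (w + a + b))
    congr 1
    funext w
    rw [add_right_comm]
  obtain ⟨c2, ψ, hψW, hψ, hψc⟩ := exists_eig W' ⟨ψ1, (hWm' ψ1).2 ⟨hψ1W, hψ1c⟩, hψ1⟩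
    (trL (0, 1)) (by
      intro φ hφ
      rw [hWm'] at hφ ⊢
      exact ⟨hWtr _ φ hφ.1, by rw [hcomm2, hφ.2, map_smul]⟩)
  rw [hWm', hWm] at hψW
  -- normalise
  have hpos : 0 < nrm ψ := by
    rcases (nrm_nonneg ψ).lt_or_eq with h | h
    · exact h
    · exact absurd (eq_zero_of_nrm h.symm.le) hψ
  set c : ℝ := (Real.sqrt (nrm ψ))⁻¹ with hc
  have hc2 : c ^ 2 = (nrm ψ)⁻¹ := by
    rw [hc, inv_pow, Real.sq_sqrt hpos.le]
  set Ψ : Conf d L → ℂ := (c : ℂ) • ψ with hΨ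
  have hn : nrm Ψ = 1 := by
    rw [hΨ, nrm_smul, hc2, inv_mul_cancel₀ hpos.ne']
  have hHΨ : H Ψ = (E : ℂ) • Ψ := by
    rw [hΨ, map_smul, hψW.1, smul_comm]
  refine ⟨Ψ, ⟨hn, fun φ hφ => ?_⟩, ?_⟩
  · have h1 : en (hermOf X) L Ψ = E := by
      have h2 : en (hermOf X) L Ψ = (bil H Ψ Ψ).re := rfl
      rw [h2]
      have h3 : bil H Ψ Ψ = E * ∑ s, conj (Ψ s) * Ψ s := by
        unfold bil
        rw [hHΨ, Finset.mul_sum]
        refine Finset.sum_congr rfl fun s _ => ?_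
        rw [Pi.smul_apply, smul_eq_mul]
        ring
      rw [h3, sum_conj_self, hn]
      simp
    have h4 := hlow φ
    rw [hφ, mul_one] at h4
    rw [h1]
    exact h4
  · apply transInv_of
    · refine ⟨c1, fun s => ?_⟩
      have h1 := congrFun hψW.2 s
      have h2 : ψ (fun w => s (w + (1, 0))) = c1 * ψ s := h1
      show (c : ℂ) * ψ (fun w => s (w + (1, 0))) = c1 * ((c : ℂ) * ψ s)
      rw [h2]
      ring
    · refine ⟨c2, fun s => ?_⟩
      have h1 := congrFun hψc s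
      have h2 : ψ (fun w => s (w + (0, 1))) = c2 * ψ s := h1
      show (c : ℂ) * ψ (fun w => s (w + (0, 1))) = c2 * ((c : ℂ) * ψ s)
      rw [h2]
      ring

end conc

theorem groundExists : StmGroundExists := by
  intro d q L _ hd hq X
  exact main hd hq X

end Pool.Agent.Y932.PE
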